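import Mathlib

/-!
# J-holomorphic spheres, their linearised operator and regularity

General definitions, for a smooth manifold `X` with model `I`, and for maps `u : S → X` from a
surface `S` (with model `IS` and almost complex structure `j`):

* `IsSymplectic I σ`: `σ` is a smooth closed nondegenerate 2-form;
* `IsCompatible I σ J`: `J` is a smooth almost complex structure compatible with `σ`;
* `IsJHolomorphic IS j I J u`: `u` is smooth with `du ∘ j = J ∘ du`;
* `linearization IS j I J u ξ`: the linearised Cauchy-Riemann operator `D_u ξ`;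
* `IsRegular IS j I J u`: `D_u` from smooth sections of `u^*TX` to smooth (0,1)-forms is
  surjective;
* `IsCoveringFamily IS j I J IB u`: a smooth family of J-holomorphic curves whose images cover `X`.

Then `S2`, `rotJ`: the Riemann sphere, as the unit sphere of Euclidean 3-space with the rotation
`v ↦ z × v` as complex structure; `Torus`, `IT`, `T4S2`, `IX`: the 4-torus, the product `T⁴ × S²`
and their models. The instances given names here are the ones of Mathlib.
-/

open scoped Manifold ContDiff
open Metric Set

noncomputable section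

namespace Pool.Agent.Helper29.Curves

section Symplectic

variable {E : Type*} [NormedAddCommGroup E] [NormedSpace ℝ E]
  {H : Type*} [TopologicalSpace H] (I : ModelWithCorners ℝ E H)
  {X : Type*} [TopologicalSpace X] [ChartedSpace H X]

/-- The 2-form `σ` on `X`, read in the preferred chart at `x₀`: its pull-back to the model vector
space `E` under the inverse of that chart. -/
def chartForm (σ : ∀ x : X, TangentSpace I x [⋀^Fin 2]→L[ℝ] ℝ) (x₀ : X) (e : E) :
    E [⋀^Fin 2]→L[ℝ] ℝ :=
  (σ ((extChartAt I x₀).symm e)).compContinuousLinearMap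
    (mfderivWithin 𝓘(ℝ, E) I (extChartAt I x₀).symm (range I) e)

/-- `σ` is a symplectic form on `X`: smooth and closed in every chart, and nondegenerate. -/
structure IsSymplectic (σ : ∀ x : X, TangentSpace I x [⋀^Fin 2]→L[ℝ] ℝ) : Prop where
  smooth : ∀ x₀ : X, ContDiffOn ℝ ∞ (chartForm I σ x₀) (extChartAt I x₀).target
  closed : ∀ x₀ : X, ∀ e ∈ (extChartAt I x₀).target,
    extDerivWithin (chartForm I σ x₀) (range I) e = 0
  nondegenerate : ∀ (x : X) (v : TangentSpace I x), (∀ w, σ x ![v, w] = 0) → v = 0

variable [IsManifold I ∞ X]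

/-- `J` is a smooth almost complex structure on `X`, compatible with the 2-form `σ`. -/
structure IsCompatible (σ : ∀ x : X, TangentSpace I x [⋀^Fin 2]→L[ℝ] ℝ)
    (J : ∀ x : X, TangentSpace I x →L[ℝ] TangentSpace I x) : Prop where
  smooth : ContMDiff I.tangent I.tangent ∞
    (fun v : TangentBundle I X => (⟨v.1, J v.1 v.2⟩ : TangentBundle I X))
  sq : ∀ (x : X) (v : TangentSpace I x), J x (J x v) = -v
  preserves : ∀ (x : X) (v w : TangentSpace I x), σ x ![J x v, J x w] = σ x ![v, w]
  pos : ∀ (x : X) (v : TangentSpace I x), v ≠ 0 → 0 < σ x ![v, J x v]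

end Symplectic

section Curves

variable {F : Type*} [NormedAddCommGroup F] [NormedSpace ℝ F]
  {G : Type*} [TopologicalSpace G] (IS : ModelWithCorners ℝ F G)
  {S : Type*} [TopologicalSpace S] [ChartedSpace G S]
  (j : ∀ z : S, TangentSpace IS z →L[ℝ] TangentSpace IS z)
  {E : Type*} [NormedAddCommGroup E] [NormedSpace ℝ E]
  {H : Type*} [TopologicalSpace H] (I : ModelWithCorners ℝ E H)
  {X : Type*} [TopologicalSpace X] [ChartedSpace H X]

/-- The endomorphism field `J` read in the preferred chart at `x₀`. -/
def chartJ (J : ∀ x : X, TangentSpace I x →L[ℝ] TangentSpace I x) (x₀ : X) (e : E) : E →L[ℝ] E :=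
  (mfderiv I 𝓘(ℝ, E) (extChartAt I x₀) ((extChartAt I x₀).symm e)) ∘L
    (J ((extChartAt I x₀).symm e)) ∘L
      (mfderivWithin 𝓘(ℝ, E) I (extChartAt I x₀).symm (range I) e)

/-- The map `u : S → X` read in the preferred chart at `x₀`. -/
def chartMap (u : S → X) (x₀ : X) (z : S) : E := extChartAt I x₀ (u z)

/-- The section `ξ` of `u^*TX` read in the preferred chart at `x₀`. -/
def chartSection (u : S → X) (ξ : ∀ z : S, TangentSpace I (u z)) (x₀ : X) (z : S) : E :=
  mfderiv I 𝓘(ℝ, E) (extChartAt I x₀) (u z) (ξ z)

/-- The linearised Cauchy-Riemann operator at a J-holomorphic map `u`, applied to the section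
`ξ` of `u^*TX`. In local coordinates of `X`, linearising `½ (du + J(u) ∘ du ∘ j)` in the direction
`ξ` gives `½ (dξ + J(u) ∘ dξ ∘ j + (∂_ξ J)(u) ∘ du ∘ j)`. At the point `z` this is computed in the
preferred chart at `u z` and carried back to the tangent space of `X` at `u z`. (For J-holomorphic
`u` the expression does not depend on the chart.) -/
def linearization (J : ∀ x : X, TangentSpace I x →L[ℝ] TangentSpace I x) (u : S → X)
    (ξ : ∀ z : S, TangentSpace I (u z)) (z : S) :
    TangentSpace IS z →L[ℝ] TangentSpace I (u z) :=
  (mfderivWithin 𝓘(ℝ, E) I (extChartAt I (u z)).symm (range I) (extChartAt I (u z) (u z))) ∘L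
    ((1 / 2 : ℝ) •
      (mvfderiv IS (chartSection I u ξ (u z)) z
        + (chartJ I J (u z) (extChartAt I (u z) (u z))) ∘L
            (mvfderiv IS (chartSection I u ξ (u z)) z) ∘L (j z)
        + (fderivWithin ℝ (chartJ I J (u z)) (range I) (extChartAt I (u z) (u z))
              (chartSection I u ξ (u z) z)) ∘L
            (mvfderiv IS (chartMap I u (u z)) z) ∘L (j z)))

variable [IsManifold IS ∞ S] [IsManifold I ∞ X]

/-- `u` is J-holomorphic: a smooth map with `du ∘ j = J ∘ du`. -/
structure IsJHolomorphic (J : ∀ x : X, TangentSpace I x →L[ℝ] TangentSpace I x)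
    (u : S → X) : Prop where
  smooth : ContMDiff IS I ∞ u
  holo : ∀ (z : S) (v : TangentSpace IS z),
    mfderiv IS I u z (j z v) = J (u z) (mfderiv IS I u z v)

/-- `ξ` is a smooth section of `u^*TX`. -/
def IsSmoothSection (u : S → X) (ξ : ∀ z : S, TangentSpace I (u z)) : Prop :=
  ContMDiff IS I.tangent ∞ (fun z => (⟨u z, ξ z⟩ : TangentBundle I X))

/-- `η` is a smooth (0,1)-form on `S` with values in `u^*TX`: a smooth family of real-linear
maps `η z : T_z S → T_{u z} X` with `η ∘ j = - J ∘ η`. -/
structure IsZeroOneForm (J : ∀ x : X, TangentSpace I x →L[ℝ] TangentSpace I x) (u : S → X)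
    (η : ∀ z : S, TangentSpace IS z →L[ℝ] TangentSpace I (u z)) : Prop where
  smooth : ContMDiff IS.tangent I.tangent ∞
    (fun v : TangentBundle IS S => (⟨u v.1, η v.1 v.2⟩ : TangentBundle I X))
  antilinear : ∀ (z : S) (v : TangentSpace IS z), η z (j z v) = -J (u z) (η z v)

/-- `u` is regular: the cokernel `H¹(S; u^*TX)` of `D_u : Γ(u^*TX) → Ω^{0,1}(S; u^*TX)` is zero,
i.e. every smooth (0,1)-form with values in `u^*TX` is `D_u ξ` for a smooth section `ξ`. -/
def IsRegular (J : ∀ x : X, TangentSpace I x →L[ℝ] TangentSpace I x) (u : S → X) : Prop :=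
  ∀ η : (∀ z : S, TangentSpace IS z →L[ℝ] TangentSpace I (u z)), IsZeroOneForm IS j I J u η →
    ∃ ξ : (∀ z : S, TangentSpace I (u z)), IsSmoothSection IS I u ξ ∧
      ∀ z, linearization IS j I J u ξ z = η z

/-- `u` is a smooth family, parametrised by the manifold `B`, of J-holomorphic maps `S → X` whose
images together cover `X`. -/
structure IsCoveringFamily (J : ∀ x : X, TangentSpace I x →L[ℝ] TangentSpace I x)
    {EB : Type*} [NormedAddCommGroup EB] [NormedSpace ℝ EB]
    {HB : Type*} [TopologicalSpace HB] (IB : ModelWithCorners ℝ EB HB)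
    {B : Type*} [TopologicalSpace B] [ChartedSpace HB B]
    (u : B → S → X) : Prop where
  smooth : ContMDiff (IB.prod IS) I ∞ (fun p : B × S => u p.1 p.2)
  holo : ∀ b : B, IsJHolomorphic IS j I J (u b)
  covers : ∀ x : X, ∃ (b : B) (z : S), u b z = x

end Curves

section Euclidean

/-- Euclidean line, plane and space. -/
abbrev E1 : Type := EuclideanSpace ℝ (Fin 1)

/-- Euclidean plane. -/
abbrev E2 : Type := EuclideanSpace ℝ (Fin 2)

/-- Euclidean 3-space. -/
abbrev E3 : Type := EuclideanSpace ℝ (Fin 3)

instance groupE1 : NormedAddCommGroup E1 := inferInstance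
instance spaceE1 : NormedSpace ℝ E1 := inferInstance
instance topE1 : TopologicalSpace E1 := inferInstance
instance groupE2 : NormedAddCommGroup E2 := inferInstance
instance spaceE2 : NormedSpace ℝ E2 := inferInstance
instance topE2 : TopologicalSpace E2 := inferInstance
instance groupE3 : NormedAddCommGroup E3 := inferInstance
instance innerE3 : InnerProductSpace ℝ E3 := inferInstance
instance spaceE3 : NormedSpace ℝ E3 := inferInstance
instance topE3 : TopologicalSpace E3 := inferInstance

end Euclidean

section Sphere

/-- The unit sphere of Euclidean 3-space. -/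
abbrev S2 : Type := sphere (0 : E3) 1

instance topS2 : TopologicalSpace S2 := inferInstance
instance chartedS2 : ChartedSpace E2 S2 := inferInstance

/-- The model of the sphere as a smooth manifold. -/
abbrev IS2 : ModelWithCorners ℝ E2 E2 := 𝓡 2

instance smoothS2 : IsManifold IS2 ∞ S2 := inferInstance

/-- The differential at `z` of the inclusion of the unit sphere in Euclidean 3-space. -/
def incl (z : S2) : TangentSpace IS2 z →L[ℝ] E3 :=
  mvfderiv IS2 ((↑) : S2 → E3) z

/-- The cross product on Euclidean 3-space. -/
def cross3 (a b : E3) : E3 := WithLp.toLp 2 (crossProduct a.ofLp b.ofLp)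

/-- `j` is the rotation by a right angle `v ↦ z × v` of the tangent plane of the sphere at `z`. -/
def IsRotation (z : S2) (j : TangentSpace IS2 z →L[ℝ] TangentSpace IS2 z) : Prop :=
  ∀ v, incl z (j v) = cross3 z (incl z v)

end Sphere

section TorusModel

instance topCircle : TopologicalSpace Circle := inferInstance
instance chartedCircle : ChartedSpace E1 Circle := inferInstance

/-- The model vector space of the 4-torus. -/
abbrev E4 : Type := E1 × E1 × E1 × E1

instance groupE4 : NormedAddCommGroup E4 := inferInstance
instance spaceE4 : NormedSpace ℝ E4 := inferInstance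

/-- The model space of the 4-torus. -/
abbrev H4 : Type := ModelProd E1 (ModelProd E1 (ModelProd E1 E1))

instance topH4 : TopologicalSpace H4 := inferInstance

/-- The 4-dimensional torus, as a product of four unit circles (a compact connected manifold). -/
abbrev Torus : Type := Circle × Circle × Circle × Circle

instance topTorus : TopologicalSpace Torus := inferInstance
instance chartedTorus : ChartedSpace H4 Torus := inferInstance

/-- The model of the circle as a smooth manifold. -/
abbrev IC : ModelWithCorners ℝ E1 E1 := 𝓡 1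

/-- The model of the torus as a smooth manifold. -/
abbrev IT : ModelWithCorners ℝ E4 H4 := IC.prod (IC.prod (IC.prod IC))

instance smoothTorus : IsManifold IT ∞ Torus := inferInstance

/-- The model vector space of the 6-manifold `T⁴ × S²`. -/
abbrev E6 : Type := E4 × E2

instance groupE6 : NormedAddCommGroup E6 := inferInstance
instance spaceE6 : NormedSpace ℝ E6 := inferInstance

/-- The model space of the 6-manifold `T⁴ × S²`. -/
abbrev H6 : Type := ModelProd H4 E2

instance topH6 : TopologicalSpace H6 := inferInstance

/-- The 6-dimensional manifold `T⁴ × S²`. -/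
abbrev T4S2 : Type := Torus × S2

instance topT4S2 : TopologicalSpace T4S2 := inferInstance
instance chartedT4S2 : ChartedSpace H6 T4S2 := inferInstance

/-- The model of `T⁴ × S²` as a smooth manifold. -/
abbrev IX : ModelWithCorners ℝ E6 H6 := IT.prod IS2

instance smoothT4S2 : IsManifold IX ∞ T4S2 := inferInstance

end TorusModel

end Pool.Agent.Helper29.Curves
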