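import Mathlib
import Pool.Agent.Helper29.Curves.Defs
import Pool.Agent.Helper29.JSphere.Main

/-!
The results of the files in `Pool.Agent.Helper29.JSphere`, restated with the definitions of
`Pool.Agent.Helper29.Curves.Defs` (the two sets of definitions unfold to the same terms).
-/

open scoped Manifold ContDiff

namespace Pool.Agent.Helper29.Curves

theorem isSymplectic : IsSymplectic IX JSphere.sigmaX :=
  ⟨JSphere.isSymplectic.smooth, JSphere.isSymplectic.closed, JSphere.isSymplectic.nondegenerate⟩

theorem isCompatible : IsCompatible IX JSphere.sigmaX JSphere.JX :=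
  ⟨JSphere.isCompatible.smooth, JSphere.isCompatible.sq, JSphere.isCompatible.preserves,
    JSphere.isCompatible.pos⟩

theorem isRotation (z : S2) : IsRotation z (JSphere.rotJ z) := JSphere.incl_rotJ z

theorem isJHolomorphic {u : S2 → T4S2}
    (h : JSphere.IsJHolomorphic JSphere.IX JSphere.JX u) :
    IsJHolomorphic IS2 JSphere.rotJ IX JSphere.JX u :=
  ⟨h.smooth, h.holo⟩

theorem isCoveringFamily :
    IsCoveringFamily IS2 JSphere.rotJ IX JSphere.JX IT (fun (b : Torus) (z : S2) => (b, z)) :=
  ⟨JSphere.isCoveringFamily.smooth, fun b => isJHolomorphic (JSphere.isCoveringFamily.holo b),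
    JSphere.isCoveringFamily.covers⟩

theorem isRegular {u : S2 → T4S2} (h : IsRegular IS2 JSphere.rotJ IX JSphere.JX u) :
    JSphere.IsRegular JSphere.IX JSphere.JX u := by
  intro η hη
  obtain ⟨ξ, h1, h2⟩ := h η ⟨hη.smooth, hη.antilinear⟩
  exact ⟨ξ, h1, h2⟩

end Pool.Agent.Helper29.Curves
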